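import Pool.Agent.Lib.helper3.WTrans

open Filter Topology MeasureTheory Set

namespace Pool.Agent.Results.MP_e40715_an.NeverHypercyclic

open Pool.Agent.Lib.helper3.WTrans

/-- No weighted translation operator `f ↦ φ(x) f({x + α})` on `L^p([0,1])` has a dense orbit. -/
theorem result (p : ENNReal) [Fact (1 ≤ p)] (α : ℝ) (hα : α ∈ Icc (0 : ℝ) 1) (φ : ℝ → ℂ)
    (hφ : MemLp φ ⊤ (volume.restrict (Icc (0 : ℝ) 1)))
    (T : Lp ℂ p (volume.restrict (Icc (0 : ℝ) 1)) →L[ℂ] Lp ℂ p (volume.restrict (Icc (0 : ℝ) 1)))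
    (hT : ∀ g : Lp ℂ p (volume.restrict (Icc (0 : ℝ) 1)),
      T g =ᵐ[volume.restrict (Icc (0 : ℝ) 1)] fun x => φ x * g (Int.fract (x + α)))
    (f : Lp ℂ p (volume.restrict (Icc (0 : ℝ) 1))) :
    ¬ Dense (range fun n : ℕ => T^[n] f) := by
  intro hd
  have hP : IsProbabilityMeasure (volume.restrict (Icc (0 : ℝ) 1)) := ⟨by simp⟩
  have hR := measurePreserving_fract hα.1 hα.2
  have hA : Approx (volume.restrict (Icc (0 : ℝ) 1)) φ (fun x => Int.fract (x + α)) f :=
    approx_of_dense hR T hT f hd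
  have hf : AEMeasurable f (volume.restrict (Icc (0 : ℝ) 1)) :=
    (Lp.aestronglyMeasurable f).aemeasurable
  by_cases h01 : α = 0 ∨ α = 1
  · refine not_approx_of_id hf ?_ hA
    rw [← Measure.restrict_congr_set Ico_ae_eq_Icc]
    filter_upwards [ae_restrict_mem measurableSet_Ico] with x hx
    rcases h01 with rfl | rfl
    · rw [add_zero]; exact Int.fract_eq_self.2 hx
    · rw [Int.fract_add_one]; exact Int.fract_eq_self.2 hx
  · rw [not_or] at h01
    have h0 : 0 < α := lt_of_le_of_ne hα.1 (Ne.symm h01.1)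
    have h1 : α < 1 := lt_of_le_of_ne hα.2 h01.2
    by_cases hZ : (volume.restrict (Icc (0 : ℝ) 1)) {x | φ x = 0} = 0
    · have hb : ∀ᵐ x ∂(volume.restrict (Icc (0 : ℝ) 1)),
          ‖φ x‖ ≤ (eLpNormEssSup φ (volume.restrict (Icc (0 : ℝ) 1))).toReal := by
        have hne : eLpNormEssSup φ (volume.restrict (Icc (0 : ℝ) 1)) ≠ ⊤ := by
          have := hφ.2.ne
          rwa [eLpNorm_exponent_top] at this
        filter_upwards [ae_le_eLpNormEssSup (f := φ) (μ := volume.restrict (Icc (0 : ℝ) 1))]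
          with x hx
        have := ENNReal.toReal_mono hne hx
        simpa using this
      refine not_approx_of_wandering hR hφ.1.aemeasurable hf ENNReal.toReal_nonneg hb hZ
        (J := Ico 0 (min α (1 - α))) measurableSet_Ico ?_ ?_ hA
      · have hsub : Ico 0 (min α (1 - α)) ⊆ Icc (0 : ℝ) 1 := fun x hx =>
          ⟨hx.1, hx.2.le.trans ((min_le_left _ _).trans h1.le)⟩
        rw [Measure.real, Measure.restrict_apply measurableSet_Ico, inter_eq_left.2 hsub,
          Real.volume_Ico, sub_zero, ENNReal.toReal_ofReal (le_min h0.le (by linarith))]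
        exact lt_min h0 (by linarith)
      · intro x hx hx'
        have a1 := hx.2.trans_le (min_le_right _ _)
        have a2 := hx'.2.trans_le (min_le_left _ _)
        have a3 := hx.1
        rw [Int.fract_eq_self.2 ⟨by linarith, by linarith⟩] at a2
        linarith
    · exact not_approx_of_zero (ENNReal.toReal_pos hZ (measure_ne_top _ _)) hA

end Pool.Agent.Results.MP_e40715_an.NeverHypercyclic
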